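import Pool.Agent.Y772.HG.Per
import Pool.Agent.Y772.DK.Cc
import Pool.Agent.N912.RC.Stm

set_option autoImplicit false
set_option linter.unusedSectionVars false

/-!
Project LB (helper912), LB10 (helper368): a character is not equal to a constant `b ≠ 0, 1` at all
primes outside of a set with a convergent sum of the reciprocals of the norms.
-/

namespace Pool.Agent.N368.LB

open NumberField Filter Finset Topology
open Pool.Agent.Y773 (VM cc)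
open Pool.Agent.Y773.G (IsModChar)
open Pool.Agent.N912.RC (S_RC1)

variable {K : Type} [Field K] [NumberField K]

open scoped Classical in
/-- the principal character attached to `η` -/
noncomputable def pr (η : Ideal (𝓞 K) →*₀ ℂ) : Ideal (𝓞 K) →*₀ ℂ where
  toFun 𝔞 := if η 𝔞 = 0 then 0 else 1
  map_zero' := if_pos (map_zero η)
  map_one' := if_neg (by rw [map_one]; exact one_ne_zero)
  map_mul' 𝔞 𝔟 := by
    simp only [map_mul, mul_eq_zero]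
    by_cases h1 : η 𝔞 = 0 <;> by_cases h2 : η 𝔟 = 0 <;> simp [h1, h2]

theorem pr_of_ne {η : Ideal (𝓞 K) →*₀ ℂ} {𝔞 : Ideal (𝓞 K)} (h : η 𝔞 ≠ 0) : pr η 𝔞 = 1 := if_neg h

theorem pr_of_eq {η : Ideal (𝓞 K) →*₀ ℂ} {𝔞 : Ideal (𝓞 K)} (h : η 𝔞 = 0) : pr η 𝔞 = 0 := if_pos h

theorem pr_le (η : Ideal (𝓞 K) →*₀ ℂ) (𝔞 : Ideal (𝓞 K)) : ‖pr η 𝔞‖ ≤ 1 := by
  by_cases h : η 𝔞 = 0
  · rw [pr_of_eq h]; simp
  · rw [pr_of_ne h]; simp

theorem sg_zero (x : K) : Pool.Agent.Y773.G.sg (fun _ => 0) x = 1 := by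
  unfold Pool.Agent.Y773.G.sg
  exact Finset.prod_eq_one fun w _ => pow_zero _

theorem le_one {𝔪 : Ideal (𝓞 K)} {e : InfinitePlace K → ℕ} {η : Ideal (𝓞 K) →*₀ ℂ}
    (h : IsModChar 𝔪 e η) (𝔞 : Ideal (𝓞 K)) : ‖η 𝔞‖ ≤ 1 := by
  by_cases h0 : IsCoprime 𝔞 𝔪
  · exact (Pool.Agent.Y772.G.norm_eta h h0).le
  · have h1 : η 𝔞 = 0 := by
      by_contra h1
      exact h0 ((h.supp 𝔞).1 h1)
    rw [h1]; simp

theorem pr_mod {𝔪 : Ideal (𝓞 K)} {e : InfinitePlace K → ℕ} {η : Ideal (𝓞 K) →*₀ ℂ}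
    (h : IsModChar 𝔪 e η) : IsModChar 𝔪 (fun _ => 0) (pr η) where
  ne_bot := h.ne_bot
  ne_top := h.ne_top
  sig_le _ := Nat.zero_le _
  cpx _ _ := rfl
  supp 𝔞 := by
    rw [← h.supp 𝔞]
    by_cases h0 : η 𝔞 = 0
    · rw [pr_of_eq h0]; simp [h0]
    · rw [pr_of_ne h0]; simp [h0]
  sig x _ hx1 := by
    rw [sg_zero, pr_of_ne]
    rw [h.supp, Ideal.isCoprime_iff_exists]
    exact ⟨x, Ideal.mem_span_singleton_self x, -(x - 1), neg_mem hx1, by ring⟩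

/-- the ideals of norm `n` -/
noncomputable def Sn (K : Type) [Field K] [NumberField K] (n : ℕ) : Finset (Ideal (𝓞 K)) :=
  (Ideal.finite_setOfPred_absNorm_eq (S := 𝓞 K) n).toFinset

theorem mem_Sn {n : ℕ} {𝔞 : Ideal (𝓞 K)} : 𝔞 ∈ Sn K n ↔ Ideal.absNorm 𝔞 = n := by
  unfold Sn
  rw [Set.Finite.mem_toFinset]
  rfl

open scoped Classical in
/-- the exceptional primes -/
noncomputable def ff (b : ℂ) (η : Ideal (𝓞 K) →*₀ ℂ) (𝔭 : Ideal (𝓞 K)) : ℝ :=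
  if 𝔭.IsPrime ∧ 𝔭 ≠ ⊥ ∧ b ≠ η 𝔭 then 1 / (Ideal.absNorm 𝔭 : ℝ) else 0

theorem ff_nonneg (b : ℂ) (η : Ideal (𝓞 K) →*₀ ℂ) (𝔭 : Ideal (𝓞 K)) : 0 ≤ ff b η 𝔭 := by
  unfold ff
  split_ifs
  · positivity
  · exact le_rfl

/-- the sum over the ideals of norm `n` -/
noncomputable def gg (b : ℂ) (η : Ideal (𝓞 K) →*₀ ℂ) (n : ℕ) : ℝ := ∑ 𝔭 ∈ Sn K n, ff b η 𝔭

theorem gg_nonneg (b : ℂ) (η : Ideal (𝓞 K) →*₀ ℂ) (n : ℕ) : 0 ≤ gg b η n :=
  sum_nonneg fun _ _ => ff_nonneg _ _ _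

theorem gg_bdd {b : ℂ} {η : Ideal (𝓞 K) →*₀ ℂ} (hs : Summable (ff b η)) (N : ℕ) :
    ∑ n ∈ Icc 1 N, gg b η n ≤ ∑' 𝔭, ff b η 𝔭 := by
  classical
  have h1 : ∑ n ∈ Icc 1 N, gg b η n = ∑ 𝔭 ∈ (Icc 1 N).biUnion (Sn K), ff b η 𝔭 := by
    rw [sum_biUnion]
    · rfl
    · intro i _ j _ hij
      rw [Function.onFun, Finset.disjoint_left]
      intro 𝔞 h1 h2
      rw [mem_Sn] at h1 h2
      exact hij (h1.symm.trans h2)
  rw [h1]
  exact hs.sum_le_tsum _ fun _ _ => ff_nonneg _ _ _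

/-- the coefficients -/
noncomputable def aa (b : ℂ) (η : Ideal (𝓞 K) →*₀ ℂ) (n : ℕ) : ℂ :=
  (ArithmeticFunction.vonMangoldt n : ℂ) * (cc η n - b * cc (pr η) n)

theorem aa_prime {b : ℂ} (hb0 : b ≠ 0) (hb : ‖b‖ ≤ 1) {η : Ideal (𝓞 K) →*₀ ℂ}
    (hη : ∀ 𝔞, ‖η 𝔞‖ ≤ 1) {p : ℕ} (hp : p.Prime) :
    ‖aa b η p‖ ≤ 2 * p * Real.log p * gg b η p := by
  have hfin := Ideal.finite_setOfPred_absNorm_eq (S := 𝓞 K) p
  have e1 : cc η p = ∑ 𝔭 ∈ Sn K p, η 𝔭 := by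
    rw [Pool.Agent.Y772.DK.cc_prime η hp, finsum_mem_eq_finite_toFinset_sum _ hfin]
    rfl
  have e2 : cc (pr η) p = ∑ 𝔭 ∈ Sn K p, pr η 𝔭 := by
    rw [Pool.Agent.Y772.DK.cc_prime (pr η) hp, finsum_mem_eq_finite_toFinset_sum _ hfin]
    rfl
  have hp0 : (0 : ℝ) < p := by exact_mod_cast hp.pos
  have hlog : 0 ≤ Real.log p := Real.log_nonneg (by exact_mod_cast hp.one_lt.le)
  unfold aa
  rw [e1, e2, mul_sum, ← sum_sub_distrib, norm_mul, Complex.norm_real,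
    Real.norm_of_nonneg ArithmeticFunction.vonMangoldt_nonneg,
    ArithmeticFunction.vonMangoldt_apply_prime hp]
  have h1 : ‖∑ 𝔭 ∈ Sn K p, (η 𝔭 - b * pr η 𝔭)‖ ≤ ∑ 𝔭 ∈ Sn K p, 2 * (p * ff b η 𝔭) := by
    refine norm_sum_le_of_le _ fun 𝔭 h𝔭 => ?_
    rw [mem_Sn] at h𝔭
    by_cases h0 : b = η 𝔭
    · have h2 : η 𝔭 ≠ 0 := by rw [← h0]; exact hb0
      rw [pr_of_ne h2, mul_one, ← h0, sub_self, norm_zero]
      have := ff_nonneg b η 𝔭
      positivity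
    · have h4 : 𝔭.IsPrime := Ideal.isPrime_of_irreducible_absNorm (by rw [h𝔭]; exact hp)
      have h5 : 𝔭 ≠ ⊥ := by
        rintro rfl
        rw [Ideal.absNorm_bot] at h𝔭
        exact hp.ne_zero h𝔭.symm
      have h6 : ff b η 𝔭 = 1 / (p : ℝ) := by
        unfold ff
        rw [if_pos ⟨h4, h5, h0⟩, h𝔭]
      rw [h6, mul_one_div_cancel hp0.ne', mul_one]
      calc ‖η 𝔭 - b * pr η 𝔭‖ ≤ ‖η 𝔭‖ + ‖b‖ * ‖pr η 𝔭‖ := by
            rw [← norm_mul]; exact norm_sub_le _ _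
        _ ≤ 1 + 1 * 1 := add_le_add (hη 𝔭)
            (mul_le_mul hb (pr_le η 𝔭) (norm_nonneg _) zero_le_one)
        _ = 2 := by norm_num
  have h2 : ∑ 𝔭 ∈ Sn K p, 2 * (p * ff b η 𝔭) = 2 * p * gg b η p := by
    unfold gg
    rw [← mul_sum, ← mul_sum, mul_assoc]
  rw [h2] at h1
  calc Real.log p * ‖∑ 𝔭 ∈ Sn K p, (η 𝔭 - b * pr η 𝔭)‖ ≤ Real.log p * (2 * p * gg b η p) :=
        mul_le_mul_of_nonneg_left h1 hlog
    _ = 2 * p * Real.log p * gg b η p := by ring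

theorem aa_le {b : ℂ} (hb : ‖b‖ ≤ 1) {η : Ideal (𝓞 K) →*₀ ℂ} (hη : ∀ 𝔞, ‖η 𝔞‖ ≤ 1) (n : ℕ) :
    ‖aa b η n‖ ≤ 2 * Module.finrank ℚ K * ArithmeticFunction.vonMangoldt n := by
  have h1 := Pool.Agent.Y772.DK.norm_cc_le η hη n
  have h2 := Pool.Agent.Y772.DK.norm_cc_le (pr η) (pr_le η) n
  have h3 : ‖cc η n - b * cc (pr η) n‖ ≤ 2 * Module.finrank ℚ K := by
    calc ‖cc η n - b * cc (pr η) n‖ ≤ ‖cc η n‖ + ‖b‖ * ‖cc (pr η) n‖ := by
          rw [← norm_mul]; exact norm_sub_le _ _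
      _ ≤ Module.finrank ℚ K + 1 * Module.finrank ℚ K :=
          add_le_add h1 (mul_le_mul hb h2 (norm_nonneg _) zero_le_one)
      _ = 2 * Module.finrank ℚ K := by ring
  unfold aa
  rw [norm_mul, Complex.norm_real, Real.norm_of_nonneg ArithmeticFunction.vonMangoldt_nonneg,
    mul_comm]
  exact mul_le_mul_of_nonneg_right h3 ArithmeticFunction.vonMangoldt_nonneg

theorem blk {b : ℂ} (hb0 : b ≠ 0) (hb : ‖b‖ ≤ 1) {η : Ideal (𝓞 K) →*₀ ℂ}
    (hη : ∀ 𝔞, ‖η 𝔞‖ ≤ 1) {A B : ℕ} (hA : 1 ≤ A) :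
    ‖∑ n ∈ Ioc A B, aa b η n‖ ≤ 2 * B * Real.log B * ∑ n ∈ Ioc A B, gg b η n +
      2 * Module.finrank ℚ K * (Chebyshev.psi B - Chebyshev.theta B) := by
  have h1 : ∀ n ∈ Ioc A B, ‖aa b η n‖ ≤ 2 * B * Real.log B * gg b η n +
      2 * Module.finrank ℚ K * (if n.Prime then 0 else ArithmeticFunction.vonMangoldt n) := by
    intro n hn
    rw [mem_Ioc] at hn
    have hg := gg_nonneg b η n
    have hn1 : (1 : ℝ) ≤ n := by exact_mod_cast (by omega : 1 ≤ n)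
    have hnB : (n : ℝ) ≤ B := by exact_mod_cast hn.2
    have hl : 0 ≤ Real.log n := Real.log_nonneg hn1
    have hlB : Real.log n ≤ Real.log B := Real.log_le_log (by linarith) hnB
    by_cases hp : n.Prime
    · rw [if_pos hp, mul_zero, add_zero]
      refine (aa_prime hb0 hb hη hp).trans ?_
      refine mul_le_mul_of_nonneg_right ?_ hg
      exact mul_le_mul (by linarith) hlB hl (by linarith)
    · rw [if_neg hp]
      have h2 := aa_le hb hη n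
      have h3 : 0 ≤ 2 * B * Real.log B * gg b η n :=
        mul_nonneg (mul_nonneg (by linarith) (by linarith)) hg
      linarith
  refine (norm_sum_le_of_le _ h1).trans ?_
  rw [sum_add_distrib, ← mul_sum, ← mul_sum]
  refine add_le_add le_rfl ?_
  refine mul_le_mul_of_nonneg_left ?_ (by positivity)
  have h4 : Chebyshev.psi (B : ℝ) - Chebyshev.theta B =
      ∑ n ∈ Ioc 0 B, (if n.Prime then 0 else ArithmeticFunction.vonMangoldt n) := by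
    rw [Chebyshev.psi_sub_theta_eq_sum_not_prime, Nat.floor_natCast, sum_filter]
    refine sum_congr rfl fun n _ => ?_
    by_cases hp : n.Prime <;> simp [hp]
  rw [h4]
  refine sum_le_sum_of_subset_of_nonneg ?_ fun n _ _ => ?_
  · intro n hn
    rw [mem_Ioc] at hn ⊢
    omega
  · split_ifs
    · exact le_rfl
    · exact ArithmeticFunction.vonMangoldt_nonneg

theorem core (h1 : S_RC1) {𝔪 : Ideal (𝓞 K)} {e : InfinitePlace K → ℕ} {η : Ideal (𝓞 K) →*₀ ℂ}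
    (h : IsModChar 𝔪 e η) {b : ℂ} (hb0 : b ≠ 0) (hb1 : b ≠ 1) (hb : ‖b‖ ≤ 1)
    (hs : Summable (ff b η)) : False := by
  have hη := le_one h
  obtain ⟨δ, hδ, -, -, T1⟩ := h1 K 𝔪 e η h
  obtain ⟨δ', -, -, hδ', T0⟩ := h1 K 𝔪 _ (pr η) (pr_mod h)
  have hd : δ' = 1 := hδ' fun 𝔞 h𝔞 => pr_of_ne ((h.supp 𝔞).2 h𝔞)
  rw [hd, Complex.ofReal_one] at T0
  set L : ℂ := δ - b with hL
  have hL0 : 0 < ‖L‖ := by
    rw [norm_pos_iff, hL]
    rcases hδ with h0 | h0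
    · rw [h0]; simpa using hb0
    · rw [h0, Complex.ofReal_one]; exact sub_ne_zero.2 (Ne.symm hb1)
  have T2 : Tendsto (fun x : ℝ => (∑ n ∈ Icc 1 ⌊x⌋₊, aa b η n) / (x : ℂ)) atTop (𝓝 L) := by
    have := T1.sub (T0.const_mul b)
    rw [mul_one] at this
    refine this.congr fun x => ?_
    rw [mul_div_assoc', ← sub_div, mul_sum, ← sum_sub_distrib]
    congr 1
    refine sum_congr rfl fun n _ => ?_
    unfold aa
    ring
  have hpow : Tendsto (fun k : ℕ => (2 : ℝ) ^ k) atTop atTop :=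
    tendsto_pow_atTop_atTop_of_one_lt one_lt_two
  set u : ℕ → ℂ := fun k => (∑ n ∈ Icc 1 (2 ^ k), aa b η n) / (2 : ℂ) ^ k with hu
  have T3 : Tendsto u atTop (𝓝 L) := by
    refine (T2.comp hpow).congr fun k => ?_
    simp only [Function.comp, hu]
    have : ⌊(2 : ℝ) ^ k⌋₊ = 2 ^ k := by
      have : (2 : ℝ) ^ k = ((2 ^ k : ℕ) : ℝ) := by push_cast; rfl
      rw [this, Nat.floor_natCast]
    rw [this]
    push_cast
    rfl
  have T4 : Tendsto (fun k => ‖2 * u (k + 1) - u k‖) atTop (𝓝 ‖L‖) := by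
    have := (((tendsto_add_atTop_iff_nat 1).2 T3).const_mul 2).sub T3
    have e1 : 2 * L - L = L := by ring
    rw [e1] at this
    exact this.norm
  have T5 : ∀ k, 2 * u (k + 1) - u k = (∑ n ∈ Ioc (2 ^ k) (2 ^ (k + 1)), aa b η n) / (2 : ℂ) ^ k := by
    intro k
    have e1 : ∑ n ∈ Icc 1 (2 ^ (k + 1)), aa b η n =
        ∑ n ∈ Icc 1 (2 ^ k), aa b η n + ∑ n ∈ Ioc (2 ^ k) (2 ^ (k + 1)), aa b η n := by
      rw [← sum_union]
      · congr 1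
        ext n
        have : 2 ^ k ≤ 2 ^ (k + 1) := Nat.pow_le_pow_right (by norm_num) (by omega)
        have h1 : 1 ≤ 2 ^ k := Nat.one_le_two_pow
        simp only [mem_union, mem_Icc, mem_Ioc]
        omega
      · rw [Finset.disjoint_left]
        intro n h1 h2
        rw [mem_Icc] at h1
        rw [mem_Ioc] at h2
        omega
    simp only [hu]
    rw [e1, pow_succ]
    field_simp
    ring
  obtain ⟨C, hC⟩ := Chebyshev.psi_sub_theta_le_mul_sqrt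
  set d : ℝ := (Module.finrank ℚ K : ℝ) with hdd
  have T6 : Tendsto (fun k : ℕ => 2 * d * (C * (Real.sqrt (2 ^ (k + 1)) / 2 ^ k))) atTop (𝓝 0) := by
    have h2 : Tendsto (fun k : ℕ => Real.sqrt 2 * (Real.sqrt (2 ^ k))⁻¹) atTop (𝓝 0) := by
      have := ((Real.tendsto_sqrt_atTop.comp hpow).inv_tendsto_atTop).const_mul (Real.sqrt 2)
      simpa using this
    have h3 := (h2.const_mul C).const_mul (2 * d)
    rw [mul_zero, mul_zero] at h3
    refine h3.congr fun k => ?_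
    have e1 : Real.sqrt (2 ^ (k + 1)) = Real.sqrt (2 ^ k) * Real.sqrt 2 := by
      rw [pow_succ, Real.sqrt_mul (by positivity)]
    have e2 : (2 : ℝ) ^ k = Real.sqrt (2 ^ k) * Real.sqrt (2 ^ k) :=
      (Real.mul_self_sqrt (by positivity)).symm
    have e3 : 0 < Real.sqrt ((2 : ℝ) ^ k) := Real.sqrt_pos.2 (by positivity)
    congr 2
    rw [e1]
    conv_rhs => rw [e2]
    rw [Real.sqrt_mul_self e3.le]
    field_simp
  have E1 := T4.eventually (lt_mem_nhds (by linarith : ‖L‖ / 2 < ‖L‖))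
  have E2 := T6.eventually (gt_mem_nhds (by linarith : (0 : ℝ) < ‖L‖ / 4))
  obtain ⟨k₀, hk₀⟩ := eventually_atTop.1 (E1.and E2)
  -- the lower bound in the dyadic blocks
  have hlow : ∀ k, k₀ ≤ k → ‖L‖ / 16 * (1 / ((k : ℝ) + 1)) ≤
      ∑ n ∈ Ioc (2 ^ k) (2 ^ (k + 1)), gg b η n := by
    intro k hk
    obtain ⟨h2, h3⟩ := hk₀ k hk
    rw [T5, norm_div, norm_pow, Complex.norm_ofNat] at h2
    have hX : (0 : ℝ) < 2 ^ k := by positivity
    rw [lt_div_iff₀ hX] at h2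
    have h4 := blk hb0 hb hη (A := 2 ^ k) (B := 2 ^ (k + 1)) Nat.one_le_two_pow
    have h5 := hC ((2 ^ (k + 1) : ℕ) : ℝ)
    push_cast at h4 h5
    have h6 : Real.log (2 ^ (k + 1)) ≤ (k : ℝ) + 1 := by
      rw [Real.log_pow]
      push_cast
      have : Real.log 2 ≤ 1 := by
        have := Real.log_two_lt_d9
        linarith
      nlinarith [(Nat.cast_nonneg k : (0 : ℝ) ≤ k)]
    have hd0 : 0 ≤ d := Nat.cast_nonneg _
    have h7 : 2 * d * (Chebyshev.psi (2 ^ (k + 1)) - Chebyshev.theta (2 ^ (k + 1))) ≤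
        ‖L‖ / 4 * 2 ^ k := by
      calc 2 * d * (Chebyshev.psi (2 ^ (k + 1)) - Chebyshev.theta (2 ^ (k + 1)))
          ≤ 2 * d * (C * Real.sqrt (2 ^ (k + 1))) := mul_le_mul_of_nonneg_left h5 (by positivity)
        _ = (2 * d * (C * (Real.sqrt (2 ^ (k + 1)) / 2 ^ k))) * 2 ^ k := by
            field_simp
        _ ≤ ‖L‖ / 4 * 2 ^ k := mul_le_mul_of_nonneg_right h3.le hX.le
    set G : ℝ := ∑ n ∈ Ioc (2 ^ k) (2 ^ (k + 1)), gg b η n with hG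
    have hG0 : 0 ≤ G := sum_nonneg fun _ _ => gg_nonneg _ _ _
    have h8 : 2 * (2 : ℝ) ^ (k + 1) * Real.log (2 ^ (k + 1)) * G ≤ 4 * 2 ^ k * ((k : ℝ) + 1) * G := by
      refine mul_le_mul_of_nonneg_right ?_ hG0
      have : 2 * (2 : ℝ) ^ (k + 1) = 4 * 2 ^ k := by ring
      rw [this]
      exact mul_le_mul_of_nonneg_left h6 (by positivity)
    have h9 : ‖L‖ / 4 * 2 ^ k ≤ (4 * ((k : ℝ) + 1) * G) * 2 ^ k := by nlinarith
    have h10 := le_of_mul_le_mul_right h9 hX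
    have hk1 : (0 : ℝ) < (k : ℝ) + 1 := by positivity
    rw [mul_one_div, div_le_iff₀ hk1]
    linarith
  -- the sums over the blocks
  have hsum : ∀ M, k₀ ≤ M → ‖L‖ / 16 * ∑ k ∈ Ico k₀ M, (1 / ((k : ℝ) + 1)) ≤
      ∑ n ∈ Icc 1 (2 ^ M), gg b η n := by
    intro M hM
    induction M, hM using Nat.le_induction with
    | base =>
      rw [Ico_self, sum_empty, mul_zero]
      exact sum_nonneg fun _ _ => gg_nonneg _ _ _
    | succ M hM ih =>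
      rw [sum_Ico_succ_top hM, mul_add]
      have e1 : ∑ n ∈ Icc 1 (2 ^ (M + 1)), gg b η n =
          ∑ n ∈ Icc 1 (2 ^ M), gg b η n + ∑ n ∈ Ioc (2 ^ M) (2 ^ (M + 1)), gg b η n := by
        rw [← sum_union]
        · congr 1
          ext n
          have : 2 ^ M ≤ 2 ^ (M + 1) := Nat.pow_le_pow_right (by norm_num) (by omega)
          have h1 : 1 ≤ 2 ^ M := Nat.one_le_two_pow
          simp only [mem_union, mem_Icc, mem_Ioc]
          omega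
        · rw [Finset.disjoint_left]
          intro n h1 h2
          rw [mem_Icc] at h1
          rw [mem_Ioc] at h2
          omega
      rw [e1]
      exact add_le_add ih (hlow M hM)
  have hdiv : Tendsto (fun M : ℕ => ∑ k ∈ range M, (1 / ((k : ℝ) + 1))) atTop atTop :=
    Real.tendsto_sum_range_one_div_nat_succ_atTop
  obtain ⟨M, hM1, hM2⟩ := ((hdiv.eventually_gt_atTop
    (∑ k ∈ range k₀, (1 / ((k : ℝ) + 1)) + (∑' 𝔭, ff b η 𝔭) / (‖L‖ / 16))).and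
      (eventually_ge_atTop k₀)).exists
  have h2 := (hsum M hM2).trans (gg_bdd hs _)
  have h3 : ∑ k ∈ Ico k₀ M, (1 / ((k : ℝ) + 1)) =
      ∑ k ∈ range M, (1 / ((k : ℝ) + 1)) - ∑ k ∈ range k₀, (1 / ((k : ℝ) + 1)) :=
    Finset.sum_Ico_eq_sub _ hM2
  rw [h3] at h2
  have h4 : (∑' 𝔭, ff b η 𝔭) / (‖L‖ / 16) <
      ∑ k ∈ range M, (1 / ((k : ℝ) + 1)) - ∑ k ∈ range k₀, (1 / ((k : ℝ) + 1)) := by linarith
  rw [div_lt_iff₀ (by linarith)] at h4
  linarith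

end Pool.Agent.N368.LB
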