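import Pool.Agent.N368.LB.Core
import Pool.Agent.N615.RC.RC0
import Pool.Agent.N912.LB.Stm2

set_option autoImplicit false
set_option linter.unusedSectionVars false

/-!
Project LB (helper912), LB10 (helper368): functions which are constant, not `1`, on the primes are far
from the ray class characters.
-/

namespace Pool.Agent.N368.LB

open NumberField Filter Finset Topology
open Pool.Agent.Y773.G (IsModChar)
open Pool.Agent.N912.RC (S_RC1)
open Pool.Agent.W78.GA (Qd nm)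
open Pool.Agent.N912.LB (RCh FarR CMI S_FARC)

section surj

variable {R K : Type} [CommRing R] [IsDomain R] [IsIntegrallyClosed R] [Field K] [NumberField K]

theorem surj (φ : R →+* 𝓞 K) (hφ : Function.Injective φ) {f₀ : ℕ} (hf : 1 ≤ f₀)
    (hm : ∀ w : 𝓞 K, ∃ z, φ z = (f₀ : 𝓞 K) * w) : Function.Surjective φ := by
  intro w
  obtain ⟨z, hz⟩ := hm w
  have hg : Function.Injective ((algebraMap (𝓞 K) K).comp φ) :=
    (FaithfulSMul.algebraMap_injective (𝓞 K) K).comp hφ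
  set ψ : FractionRing R →+* K := IsFractionRing.lift hg with hψ
  have hψa : ∀ r : R, ψ (algebraMap R (FractionRing R) r) = (φ r : K) := fun r =>
    IsFractionRing.lift_algebraMap hg r
  have hf0 : (f₀ : K) ≠ 0 := by exact_mod_cast (by omega : f₀ ≠ 0)
  set x : FractionRing R := algebraMap R (FractionRing R) z / (f₀ : FractionRing R) with hx
  have h1 : ψ x = (w : K) := by
    rw [hx, map_div₀, hψa, hz, map_natCast]
    push_cast
    field_simp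
  have h4 : IsIntegral R x := by
    obtain ⟨p, hp, hp0⟩ := w.2
    refine ⟨p.map (Int.castRingHom R), hp.map _, ?_⟩
    rw [Polynomial.eval₂_map]
    apply ψ.injective
    rw [Polynomial.hom_eval₂, map_zero, h1, ← hp0]
    congr 1
    exact RingHom.ext_int _ _
  obtain ⟨y, hy⟩ := IsIntegrallyClosed.isIntegral_iff.1 h4
  refine ⟨y, ?_⟩
  have h5 := congrArg ψ hy
  rw [hψa, h1] at h5
  exact_mod_cast h5

end surj

section tr

variable {R K : Type} [CommRing R] [Field K] [NumberField K] (g : 𝓞 K ≃+* R)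

/-- the ideals of `𝓞 K` and of `R` -/
def ie : Ideal (𝓞 K) ≃ Ideal R where
  toFun 𝔞 := 𝔞.map (g : 𝓞 K →+* R)
  invFun I := I.map (g.symm : R →+* 𝓞 K)
  left_inv _ := Ideal.map_of_equiv g
  right_inv _ := Ideal.map_of_equiv g.symm

theorem ie_mul (𝔞 𝔟 : Ideal (𝓞 K)) : ie g (𝔞 * 𝔟) = ie g 𝔞 * ie g 𝔟 := Ideal.map_mul _ _ _

theorem ie_span (x : 𝓞 K) : ie g (Ideal.span {x}) = Ideal.span {g x} := by
  show Ideal.map (g : 𝓞 K →+* R) (Ideal.span {x}) = _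
  rw [Ideal.map_span, Set.image_singleton]
  rfl

theorem ie_bot : ie g ⊥ = ⊥ := Ideal.map_bot

theorem ie_top : ie g ⊤ = ⊤ := Ideal.map_top _

theorem ie_ne {𝔞 : Ideal (𝓞 K)} : ie g 𝔞 ≠ ⊥ ↔ 𝔞 ≠ ⊥ := by
  rw [not_iff_not]
  constructor
  · intro h
    rw [← ie_bot g] at h
    exact (ie g).injective h
  · rintro rfl
    exact ie_bot g

theorem ie_prime {𝔞 : Ideal (𝓞 K)} : (ie g 𝔞).IsPrime ↔ 𝔞.IsPrime := by
  constructor
  · intro h
    have h1 : ((ie g 𝔞).map g.symm).IsPrime := Ideal.map_isPrime_of_equiv g.symm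
    have h2 : (ie g 𝔞).map g.symm = 𝔞 := (ie g).left_inv 𝔞
    rwa [h2] at h1
  · intro h
    exact Ideal.map_isPrime_of_equiv g

theorem ie_cop {𝔞 : Ideal (𝓞 K)} {𝔪 : Ideal R} :
    IsCoprime (ie g 𝔞) 𝔪 ↔ IsCoprime 𝔞 ((ie g).symm 𝔪) := by
  constructor
  · intro h
    have h1 := h.map (Ideal.mapHom (g.symm : R →+* 𝓞 K))
    have h2 : Ideal.mapHom (g.symm : R →+* 𝓞 K) (ie g 𝔞) = 𝔞 := (ie g).left_inv 𝔞
    rw [h2] at h1
    exact h1
  · intro h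
    have h1 := h.map (Ideal.mapHom (g : 𝓞 K →+* R))
    have h2 : Ideal.mapHom (g : 𝓞 K →+* R) ((ie g).symm 𝔪) = 𝔪 := (ie g).right_inv 𝔪
    rw [h2] at h1
    exact h1

theorem ie_mem {𝔪 : Ideal R} {x : 𝓞 K} (h : x ∈ (ie g).symm 𝔪) : g x ∈ 𝔪 := by
  have h1 : g x ∈ ie g ((ie g).symm 𝔪) := Ideal.mem_map_of_mem (g : 𝓞 K →+* R) h
  rwa [Equiv.apply_symm_apply] at h1

theorem ie_card (𝔞 : Ideal (𝓞 K)) : Nat.card (R ⧸ ie g 𝔞) = Ideal.absNorm 𝔞 := by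
  rw [Ideal.absNorm_apply, Submodule.cardQuot_apply]
  exact Nat.card_congr (Ideal.quotientEquiv 𝔞 (ie g 𝔞) g rfl).toEquiv.symm

open scoped Classical in
/-- the character of `𝓞 K` modulo `2 𝔪` -/
noncomputable def tr (η : Ideal R →*₀ ℂ) : Ideal (𝓞 K) →*₀ ℂ where
  toFun 𝔞 := η (ie g 𝔞) * if IsCoprime 𝔞 (Ideal.span {(2 : 𝓞 K)}) then 1 else 0
  map_zero' := by
    rw [Ideal.zero_eq_bot, ie_bot, ← Ideal.zero_eq_bot, map_zero, zero_mul]
  map_one' := by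
    rw [Ideal.one_eq_top, ie_top, ← Ideal.one_eq_top, map_one, one_mul, if_pos]
    rw [← Ideal.one_eq_top]
    exact isCoprime_one_left
  map_mul' 𝔞 𝔟 := by
    rw [ie_mul, map_mul]
    by_cases h1 : IsCoprime 𝔞 (Ideal.span {(2 : 𝓞 K)}) <;>
      by_cases h2 : IsCoprime 𝔟 (Ideal.span {(2 : 𝓞 K)}) <;>
      simp [h1, h2, IsCoprime.mul_left_iff]

open scoped Classical in
theorem tr_mod {𝔪 : Ideal R} {η : Ideal R →*₀ ℂ} (h : RCh 𝔪 η)
    (h2 : Ideal.span {(2 : 𝓞 K)} ≠ ⊤) :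
    IsModChar ((ie g).symm 𝔪 * Ideal.span {(2 : 𝓞 K)}) (fun _ => 0) (tr g η) where
  ne_bot := by
    have h1 : (ie g).symm 𝔪 ≠ ⊥ := by
      rw [← ie_ne g, Equiv.apply_symm_apply]
      exact h.ne_bot
    have h3 : Ideal.span {(2 : 𝓞 K)} ≠ ⊥ := by
      rw [ne_eq, Ideal.span_singleton_eq_bot]
      exact two_ne_zero
    rw [← Ideal.zero_eq_bot] at h1 h3 ⊢
    exact mul_ne_zero h1 h3
  ne_top h3 := by
    apply h2
    rw [eq_top_iff, ← h3]
    exact Ideal.mul_le_inf.trans inf_le_right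
  sig_le _ := Nat.zero_le _
  cpx _ _ := rfl
  supp 𝔞 := by
    have e1 : tr g η 𝔞 = η (ie g 𝔞) * if IsCoprime 𝔞 (Ideal.span {(2 : 𝓞 K)}) then 1 else 0 := rfl
    rw [e1, IsCoprime.mul_right_iff, mul_ne_zero_iff, h.supp, ie_cop]
    by_cases h1 : IsCoprime 𝔞 (Ideal.span {(2 : 𝓞 K)}) <;> simp [h1]
  sig x hx0 hx := by
    have e1 : tr g η (Ideal.span {x}) = η (ie g (Ideal.span {x})) *
      if IsCoprime (Ideal.span {x}) (Ideal.span {(2 : 𝓞 K)}) then 1 else 0 := rfl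
    have hx1 : x - 1 ∈ (ie g).symm 𝔪 := (Ideal.mul_le_inf.trans inf_le_left) hx
    have hx2 : x - 1 ∈ Ideal.span {(2 : 𝓞 K)} := (Ideal.mul_le_inf.trans inf_le_right) hx
    have h3 := ie_mem g hx1
    rw [map_sub, map_one] at h3
    have h4 : IsCoprime (Ideal.span {x}) (Ideal.span {(2 : 𝓞 K)}) := by
      rw [Ideal.isCoprime_iff_exists]
      exact ⟨x, Ideal.mem_span_singleton_self x, -(x - 1), neg_mem hx2, by ring⟩
    rw [sg_zero, e1, ie_span, if_pos h4, mul_one]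
    exact h.ray (g x) (by simpa using hx0) h3

open scoped Classical in
theorem tr_eq {η : Ideal R →*₀ ℂ} {𝔞 : Ideal (𝓞 K)} (h : IsCoprime 𝔞 (Ideal.span {(2 : 𝓞 K)})) :
    tr g η 𝔞 = η (ie g 𝔞) := by
  have e1 : tr g η 𝔞 = η (ie g 𝔞) * if IsCoprime 𝔞 (Ideal.span {(2 : 𝓞 K)}) then 1 else 0 := rfl
  rw [e1, if_pos h, mul_one]

/-- a prime which is not prime to `2` -/
theorem two_mem {𝔭 : Ideal (𝓞 K)} (hp : 𝔭.IsPrime) (h0 : 𝔭 ≠ ⊥)
    (h : ¬ IsCoprime 𝔭 (Ideal.span {(2 : 𝓞 K)})) : (2 : 𝓞 K) ∈ 𝔭 := by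
  rw [Ideal.isCoprime_iff_sup_eq] at h
  obtain ⟨M, hM, hle⟩ := Ideal.exists_le_maximal _ h
  have h1 : 𝔭 = M := (hp.isMaximal h0).eq_of_le hM.ne_top (le_sup_left.trans hle)
  rw [h1]
  exact hle ((le_sup_right : Ideal.span {(2 : 𝓞 K)} ≤ _) (Ideal.mem_span_singleton_self _))

include g in
theorem main (h1 : S_RC1) (h2 : Ideal.span {(2 : 𝓞 K)} ≠ ⊤) {N : ℕ} {F : Ideal R → ℂ}
    (hF : CMI N F) {b : ℂ} (hb1 : b ≠ 1)
    (hb : ∀ 𝔭 : Ideal R, 𝔭.IsPrime → 𝔭 ≠ ⊥ → F 𝔭 = b) : FarR F := by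
  classical
  -- `b` is a root of unity
  have hbN : b ^ N = 1 := by
    obtain ⟨M, hM, hle⟩ := Ideal.exists_le_maximal _ h2
    have h3 : M ≠ ⊥ := by
      rintro rfl
      have := hle (Ideal.mem_span_singleton_self _)
      rw [Ideal.mem_bot] at this
      exact two_ne_zero this
    have h4 : ie g M ≠ ⊥ := (ie_ne g).2 h3
    rw [← hb (ie g M) ((ie_prime g).2 hM.isPrime) h4]
    exact hF.pow _ h4
  have hN := hF.pos
  have hb0 : b ≠ 0 := by
    rintro rfl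
    rw [zero_pow (by omega)] at hbN
    exact zero_ne_one hbN
  have hbn : ‖b‖ = 1 := by
    have h3 : ‖b‖ ^ N = 1 := by rw [← norm_pow, hbN, norm_one]
    exact (pow_eq_one_iff_of_nonneg (norm_nonneg _) (by omega)).1 h3
  intro 𝔪 η hR hs
  refine core h1 (tr_mod g hR h2) hb0 hb1 hbn.le ?_
  have hs' := (ie g).summable_iff.2 hs
  set B : ℕ := Ideal.absNorm (Ideal.span {(2 : 𝓞 K)}) with hB
  have hB0 : B ≠ 0 := by
    rw [hB, ne_eq, Ideal.absNorm_eq_zero_iff, Ideal.span_singleton_eq_bot]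
    exact two_ne_zero
  have hfin := Ideal.finite_setOfPred_absNorm_le (S := 𝓞 K) B
  have hs2 : Summable (fun 𝔭 : Ideal (𝓞 K) => if 𝔭 ∈ hfin.toFinset then (1 : ℝ) else 0) := by
    refine summable_of_ne_finset_zero (s := hfin.toFinset) fun 𝔭 h𝔭 => ?_
    rw [if_neg h𝔭]
  refine Summable.of_nonneg_of_le (fun 𝔭 => ff_nonneg _ _ _) (fun 𝔭 => ?_) (hs'.add hs2)
  simp only [Function.comp]
  have hn1 : 0 ≤ (if (ie g 𝔭).IsPrime ∧ ie g 𝔭 ≠ ⊥ ∧ F (ie g 𝔭) ≠ η (ie g 𝔭) then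
      1 / (Nat.card (R ⧸ ie g 𝔭) : ℝ) else 0) := by
    split_ifs
    · positivity
    · exact le_rfl
  have hn2 : (0 : ℝ) ≤ if 𝔭 ∈ hfin.toFinset then (1 : ℝ) else 0 := by
    split_ifs
    · norm_num
    · exact le_rfl
  by_cases h3 : 𝔭.IsPrime ∧ 𝔭 ≠ ⊥ ∧ b ≠ tr g η 𝔭
  · obtain ⟨a1, a2, a3⟩ := h3
    have h0 : Ideal.absNorm 𝔭 ≠ 0 := by
      rw [ne_eq, Ideal.absNorm_eq_zero_iff]
      exact a2
    have e1 : ff b (tr g η) 𝔭 = 1 / (Ideal.absNorm 𝔭 : ℝ) := by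
      unfold ff
      rw [if_pos ⟨a1, a2, a3⟩]
    by_cases h4 : IsCoprime 𝔭 (Ideal.span {(2 : 𝓞 K)})
    · rw [tr_eq g h4] at a3
      rw [if_pos ⟨(ie_prime g).2 a1, (ie_ne g).2 a2, by
        rw [hb _ ((ie_prime g).2 a1) ((ie_ne g).2 a2)]; exact a3⟩, ie_card, e1]
      linarith
    · have h5 := two_mem a1 a2 h4
      have h6 : Ideal.absNorm 𝔭 ∣ B := by
        rw [hB]
        exact map_dvd Ideal.absNorm (Ideal.dvd_iff_le.2 (by
          rw [Ideal.span_singleton_le_iff_mem]; exact h5))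
      have h7 : 𝔭 ∈ hfin.toFinset := by
        rw [Set.Finite.mem_toFinset]
        exact Nat.le_of_dvd (Nat.pos_of_ne_zero hB0) h6
      rw [if_pos h7, e1]
      have h8 : (1 : ℝ) ≤ Ideal.absNorm 𝔭 := by exact_mod_cast Nat.one_le_iff_ne_zero.2 h0
      have h9 : 1 / (Ideal.absNorm 𝔭 : ℝ) ≤ 1 := by
        rw [div_le_one (by linarith)]
        exact h8
      linarith
  · have e1 : ff b (tr g η) 𝔭 = 0 := by
      unfold ff
      rw [if_neg h3]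
    rw [e1]
    linarith

end tr

/-- **LB10** -/
theorem farc (h1 : S_RC1) : S_FARC := by
  intro t c htc hic N F hF b hb1 hb
  obtain ⟨K, _, _, _, φ, f₀, -, hf0, hinj, hnorm, hmem⟩ := Pool.Agent.N615.RC.rc0 t c htc
  have : IsDomain (Qd t c) := hinj.isDomain φ
  have hsurj : Function.Surjective φ := surj φ hinj hf0 hmem
  set E : Qd t c ≃+* 𝓞 K := RingEquiv.ofBijective φ ⟨hinj, hsurj⟩ with hE
  refine main E.symm h1 ?_ hF hb1 hb
  intro htop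
  have h2 := hnorm 2
  have h3 : φ 2 = 2 := map_ofNat φ 2
  rw [h3, htop, Ideal.absNorm_top] at h2
  have h4 : nm (2 : Qd t c) = 4 := by
    unfold nm
    have e1 : (2 : Qd t c).re = 2 := rfl
    have e2 : (2 : Qd t c).im = 0 := rfl
    rw [e1, e2]
    norm_num
  rw [h4] at h2
  norm_num at h2

end Pool.Agent.N368.LB
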